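import Pool.Agent.Work.MP_446ff5_lc.Mink

/-!
Timelike relatedness is definable from lightlike relatedness by one formula of the form
`∃ u₁ … u₁₃ ∀ v ψ` with `ψ` quantifier-free, in every dimension at least three and over every
Euclidean ordered field.
-/

namespace Pool.Agent.Results.MP_446ff5_lc.TimelikeEA

open FirstOrder FirstOrder.Language Pool.Agent.Work.MP_446ff5_lc

universe u

/-- The squared Minkowski distance on `F^{m+1}`; coordinate `0` is time. -/
def mu {F : Type u} [Field F] {m : ℕ} (x y : Fin (m + 1) → F) : F :=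
  (x 0 - y 0) ^ 2 - ∑ i : Fin m, (x i.succ - y i.succ) ^ 2

/-- The graph of lightlike relatedness on `F^{m+1}`. -/
def lightlike (F : Type u) [Field F] (m : ℕ) : SimpleGraph (Fin (m + 1) → F) where
  Adj x y := mu x y = 0 ∧ x ≠ y
  symm := ⟨by
    rintro x y ⟨h1, h2⟩
    refine ⟨?_, h2.symm⟩
    rw [← h1]
    unfold mu
    congr 1
    · ring
    · exact Finset.sum_congr rfl fun i _ => by ring⟩
  loopless := ⟨fun x h => h.2 rfl⟩

/-- A variable for one of the two given points. -/
abbrev tX : Language.graph.Term (Fin 2 ⊕ Fin 14) := Term.var (Sum.inl 0)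
abbrev tY : Language.graph.Term (Fin 2 ⊕ Fin 14) := Term.var (Sum.inl 1)
/-- The bound variables. -/
abbrev tU (j : Fin 14) : Language.graph.Term (Fin 2 ⊕ Fin 14) := Term.var (Sum.inr j)

/-- `a` and `b` are lightlike related. -/
def rl (a b : Language.graph.Term (Fin 2 ⊕ Fin 14)) : Language.graph.BoundedFormula (Fin 2) 14 :=
  Relations.boundedFormula₂ adj a b

/-- No point of the null line `bc` is related to `a` (quantified over the last variable). -/
def off (a b c : Language.graph.Term (Fin 2 ⊕ Fin 14)) :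
    Language.graph.BoundedFormula (Fin 2) 14 :=
  (∼(rl a b) ⊓ ∼(Term.bdEqual a b)) ⊓ (∼(rl a c) ⊓ ∼(rl (tU 13) b ⊓ (rl (tU 13) c ⊓ rl (tU 13) a)))

/-- The quantifier-free matrix. -/
def psi : Language.graph.BoundedFormula (Fin 2) 14 :=
  List.foldr (· ⊓ ·) ⊤
    [rl tX (tU 1), rl tX (tU 2), rl (tU 1) (tU 2), rl tX (tU 4), rl (tU 1) (tU 4),
     rl (tU 0) tY, rl (tU 0) (tU 3), rl tY (tU 3), rl (tU 0) (tU 5), rl tY (tU 5),
     rl tX (tU 0), rl (tU 1) tY, rl (tU 2) (tU 3), rl (tU 4) (tU 5),
     rl (tU 6) (tU 7), rl (tU 6) (tU 8), rl (tU 7) (tU 8), rl (tU 6) (tU 4), rl (tU 7) (tU 4),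
     rl (tU 9) (tU 10), rl (tU 9) (tU 11), rl (tU 10) (tU 11),
     rl (tU 6) (tU 9), rl (tU 7) (tU 10), rl (tU 8) (tU 11),
     ∼(rl (tU 6) (tU 5)), ∼(Term.bdEqual (tU 6) (tU 5)),
     off (tU 6) tX (tU 0), off (tU 9) tX (tU 0),
     off (tU 7) (tU 1) tY, off (tU 10) (tU 1) tY,
     off (tU 8) (tU 2) (tU 3), off (tU 11) (tU 2) (tU 3),
     rl (tU 1) (tU 12), off (tU 0) (tU 1) (tU 12)]

lemma rl_isQF (a b) : (rl a b).IsQF := (Relations.isAtomic _ _).isQF

lemma off_isQF (a b c) : (off a b c).IsQF := by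
  unfold off
  refine BoundedFormula.IsQF.inf (BoundedFormula.IsQF.inf (rl_isQF _ _).not ?_)
    (BoundedFormula.IsQF.inf (rl_isQF _ _).not
      (BoundedFormula.IsQF.inf (rl_isQF _ _)
        (BoundedFormula.IsQF.inf (rl_isQF _ _) (rl_isQF _ _))).not)
  exact (BoundedFormula.IsAtomic.equal _ _).isQF.not

lemma foldr_isQF (l : List (Language.graph.BoundedFormula (Fin 2) 14)) (h : ∀ φ ∈ l, φ.IsQF) :
    (List.foldr (· ⊓ ·) ⊤ l).IsQF := by
  induction l with
  | nil => exact BoundedFormula.IsQF.top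
  | cons a l ih =>
    simp only [List.foldr_cons]
    exact (h a (by simp)).inf (ih fun φ hφ => h φ (by simp [hφ]))

lemma psi_isQF : psi.IsQF := by
  unfold psi
  apply foldr_isQF
  simp only [List.forall_mem_cons]
  refine ⟨rl_isQF _ _, rl_isQF _ _, rl_isQF _ _, rl_isQF _ _, rl_isQF _ _,
    rl_isQF _ _, rl_isQF _ _, rl_isQF _ _, rl_isQF _ _, rl_isQF _ _,
    rl_isQF _ _, rl_isQF _ _, rl_isQF _ _, rl_isQF _ _,
    rl_isQF _ _, rl_isQF _ _, rl_isQF _ _, rl_isQF _ _, rl_isQF _ _,
    rl_isQF _ _, rl_isQF _ _, rl_isQF _ _, rl_isQF _ _, rl_isQF _ _, rl_isQF _ _,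
    (rl_isQF _ _).not, (BoundedFormula.IsAtomic.equal _ _).isQF.not,
    off_isQF _ _ _, off_isQF _ _ _, off_isQF _ _ _, off_isQF _ _ _, off_isQF _ _ _,
    off_isQF _ _ _, rl_isQF _ _, off_isQF _ _ _, ?_⟩
  simp

section Semantics

variable {F : Type u} [Field F] [LinearOrder F] [IsStrictOrderedRing F] {m : ℕ}

omit [LinearOrder F] [IsStrictOrderedRing F] in
lemma mu_eq (x y : Fin (m + 1) → F) : mu x y = mink F m (x - y) (x - y) := by
  rw [mink_self]; rfl

omit [LinearOrder F] [IsStrictOrderedRing F] in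
lemma adj_iff (x y : Fin (m + 1) → F) : (lightlike F m).Adj x y ↔ Lam (mink F m) x y := by
  unfold Lam
  rw [← mu_eq]
  rfl

/-- Semantics of `off`. -/
def Off (a b c v : Fin (m + 1) → F) : Prop :=
  (¬ Lam (mink F m) a b ∧ ¬ a = b) ∧
    (¬ Lam (mink F m) a c ∧ ¬ (Lam (mink F m) v b ∧ (Lam (mink F m) v c ∧ Lam (mink F m) v a)))

/-- The configuration. -/
def Conf (x y : Fin (m + 1) → F) (u : Fin 13 → Fin (m + 1) → F) (v : Fin (m + 1) → F) : Prop :=
  let R := Lam (mink F m)
  R x (u 1) ∧ R x (u 2) ∧ R (u 1) (u 2) ∧ R x (u 4) ∧ R (u 1) (u 4) ∧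
  R (u 0) y ∧ R (u 0) (u 3) ∧ R y (u 3) ∧ R (u 0) (u 5) ∧ R y (u 5) ∧
  R x (u 0) ∧ R (u 1) y ∧ R (u 2) (u 3) ∧ R (u 4) (u 5) ∧
  R (u 6) (u 7) ∧ R (u 6) (u 8) ∧ R (u 7) (u 8) ∧ R (u 6) (u 4) ∧ R (u 7) (u 4) ∧
  R (u 9) (u 10) ∧ R (u 9) (u 11) ∧ R (u 10) (u 11) ∧
  R (u 6) (u 9) ∧ R (u 7) (u 10) ∧ R (u 8) (u 11) ∧
  ¬ R (u 6) (u 5) ∧ ¬ (u 6 = u 5) ∧
  Off (u 6) x (u 0) v ∧ Off (u 9) x (u 0) v ∧
  Off (u 7) (u 1) y v ∧ Off (u 10) (u 1) y v ∧
  Off (u 8) (u 2) (u 3) v ∧ Off (u 11) (u 2) (u 3) v ∧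
  R (u 1) (u 12) ∧ Off (u 0) (u 1) (u 12) v

omit [LinearOrder F] [IsStrictOrderedRing F] in
lemma realize_rl' (a b : Language.graph.Term (Fin 2 ⊕ Fin 14)) (v : Fin 2 → Fin (m + 1) → F)
    (xs : Fin 14 → Fin (m + 1) → F) :
    @BoundedFormula.Realize Language.graph _ (lightlike F m).structure _ _ (rl a b) v xs ↔
      Lam (mink F m) (@Term.realize Language.graph _ (lightlike F m).structure _
        (Sum.elim v xs) a) (@Term.realize Language.graph _ (lightlike F m).structure _
        (Sum.elim v xs) b) := by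
  let := (lightlike F m).structure
  rw [← adj_iff]
  exact BoundedFormula.realize_rel₂

omit [LinearOrder F] [IsStrictOrderedRing F] in
lemma realize_off (a b c : Language.graph.Term (Fin 2 ⊕ Fin 14)) (v : Fin 2 → Fin (m + 1) → F)
    (xs : Fin 14 → Fin (m + 1) → F) :
    @BoundedFormula.Realize Language.graph _ (lightlike F m).structure _ _ (off a b c) v xs ↔
      Off (@Term.realize Language.graph _ (lightlike F m).structure _
        (Sum.elim v xs) a) (@Term.realize Language.graph _ (lightlike F m).structure _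
        (Sum.elim v xs) b) (@Term.realize Language.graph _ (lightlike F m).structure _
        (Sum.elim v xs) c) (xs 13) := by
  let := (lightlike F m).structure
  unfold off Off
  simp only [BoundedFormula.realize_inf, BoundedFormula.realize_not, realize_rl',
    BoundedFormula.realize_bdEqual]
  rfl

omit [LinearOrder F] [IsStrictOrderedRing F] in
lemma realize_psi (x y : Fin (m + 1) → F) (u : Fin 13 → Fin (m + 1) → F)
    (v : Fin (m + 1) → F) :
    @BoundedFormula.Realize Language.graph _ (lightlike F m).structure _ _ psi ![x, y]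
      (Fin.snoc u v) ↔ Conf x y u v := by
  let := (lightlike F m).structure
  unfold psi Conf
  rw [BoundedFormula.realize_foldr_inf]
  simp only [List.forall_mem_cons, realize_rl', realize_off, BoundedFormula.realize_not,
    BoundedFormula.realize_bdEqual, Term.realize_var, Sum.elim_inl, Sum.elim_inr,
    Matrix.cons_val_zero, Matrix.cons_val_one]
  simp only [List.not_mem_nil, false_implies, implies_true, and_true]
  rfl

/-- Meaning of `off` for all values of the universally quantified point. -/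
lemma off_iff {a b c : Fin (m + 1) → F} (hbc : Lam (mink F m) b c) :
    (∀ v, Off a b c v) ↔ mink F m (a - b) (c - b) = 0 ∧ mink F m (a - b) (a - b) < 0 := by
  have hcb := lam_symm _ hbc
  have hk0 : c - b ≠ 0 := sub_ne_zero.2 hcb.2
  constructor
  · intro h
    have h0 := h 0
    have hne : a - b ≠ 0 := sub_ne_zero.2 h0.1.2
    have hmu : mink F m (a - b) (a - b) ≠ 0 := fun h1 => h0.1.1 ⟨h1, h0.1.2⟩
    have horth : mink F m (a - b) (c - b) = 0 := by
      by_contra hcon
      set α := mink F m (a - b) (a - b) / (2 * mink F m (a - b) (c - b)) with hα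
      have hα0 : α ≠ 0 := by
        rw [hα]
        exact div_ne_zero hmu (mul_ne_zero two_ne_zero hcon)
      -- `v = b + α (c - b)` is at null distance from `a`
      have key : mink F m (b + α • (c - b) - a) (b + α • (c - b) - a) = 0 := by
        have e : b + α • (c - b) - a = α • (c - b) - (a - b) := by module
        rw [e]
        generalize hk : c - b = k at *
        generalize hu : a - b = w at *
        simp only [map_sub, map_smul, LinearMap.sub_apply, LinearMap.smul_apply, smul_eq_mul]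
        have hkk : mink F m k k = 0 := by rw [← hk]; exact hcb.1
        rw [hkk, mink_symm k w, hα]
        field_simp
        ring
      have hvb : Lam (mink F m) (b + α • (c - b)) b := by
        constructor
        · have e : b + α • (c - b) - b = α • (c - b) := by abel
          rw [e, map_smul, LinearMap.map_smul₂, hcb.1]
          simp
        · intro e
          have : α • (c - b) = 0 := by
            have := congrArg (fun t => t - b) e
            simpa using this
          rcases smul_eq_zero.1 this with h1 | h1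
          · exact hα0 h1
          · exact hk0 h1
      have hva : b + α • (c - b) ≠ a := by
        intro e
        rw [e] at hvb
        exact h0.1.1 hvb
      have hvc : b + α • (c - b) ≠ c := by
        intro e
        rw [e] at key hva
        exact h0.2.1 (lam_symm _ ⟨key, hva⟩)
      have hvc' : Lam (mink F m) (b + α • (c - b)) c := by
        refine ⟨?_, hvc⟩
        have e : b + α • (c - b) - c = (α - 1) • (c - b) := by module
        rw [e, map_smul, LinearMap.map_smul₂, hcb.1]
        simp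
      exact (h (b + α • (c - b))).2.2 ⟨hvb, hvc', key, hva⟩
    exact ⟨horth, lt_of_le_of_ne (orth_null _ _ hcb.1 hk0 horth) hmu⟩
  · rintro ⟨h1, h2⟩ v
    have hac : mink F m (a - c) (a - c) = mink F m (a - b) (a - b) := by
      have e : a - c = (a - b) - (c - b) := by abel
      rw [e]
      generalize hk : c - b = k at *
      generalize hu : a - b = w at *
      simp only [map_sub, LinearMap.sub_apply]
      have hkk : mink F m k k = 0 := by rw [← hk]; exact hcb.1
      rw [hkk, mink_symm k w, h1]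
      ring
    refine ⟨⟨fun h => h2.ne h.1, ?_⟩, fun h => ?_, ?_⟩
    · rintro rfl
      simp at h2
    · rw [← hac] at h2
      exact h2.ne h.1
    · rintro ⟨hvb, hvc, hva⟩
      obtain ⟨σ, hσ, -, -⟩ := collinear (mink F m) mink_symm null_prop hbc (lam_symm _ hvb)
        (lam_symm _ hvc)
      have e : v - a = σ • (c - b) - (a - b) := by rw [hσ]; abel
      have h3 := hva.1
      rw [e] at h3
      generalize hk : c - b = k at *
      generalize hu : a - b = w at *
      simp only [map_sub, map_smul, LinearMap.sub_apply, LinearMap.smul_apply, smul_eq_mul] at h3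
      have hkk : mink F m k k = 0 := by rw [← hk]; exact hcb.1
      rw [hkk, mink_symm k w, h1] at h3
      linarith

/-- The configuration implies timelike relatedness. -/
lemma conf_timelike {x y : Fin (m + 1) → F} {u : Fin 13 → Fin (m + 1) → F}
    (h : ∀ v, Conf x y u v) : 0 < mu x y := by
  obtain ⟨h1, h2, h3, h4, h5, h6, h7, h8, h9, h10, h11, h12, h13, h14, h15, h16, h17, h18, h19,
    h20, h21, h22, h23, h24, h25, h26, h27, -, -, -, -, -, -, h34, -⟩ := h 0
  have o1 := (off_iff h11).1 fun v => (by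
    obtain ⟨-, -, -, -, -, -, -, -, -, -, -, -, -, -, -, -, -, -, -,
      -, -, -, -, -, -, -, -, k, -, -, -, -, -, -, -⟩ := h v
    exact k : Off (u 6) x (u 0) v)
  have o2 := (off_iff h11).1 fun v => (by
    obtain ⟨-, -, -, -, -, -, -, -, -, -, -, -, -, -, -, -, -, -, -,
      -, -, -, -, -, -, -, -, -, k, -, -, -, -, -, -⟩ := h v
    exact k : Off (u 9) x (u 0) v)
  have o3 := (off_iff h12).1 fun v => (by
    obtain ⟨-, -, -, -, -, -, -, -, -, -, -, -, -, -, -, -, -, -, -,
      -, -, -, -, -, -, -, -, -, -, k, -, -, -, -, -⟩ := h v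
    exact k : Off (u 7) (u 1) y v)
  have o4 := (off_iff h12).1 fun v => (by
    obtain ⟨-, -, -, -, -, -, -, -, -, -, -, -, -, -, -, -, -, -, -,
      -, -, -, -, -, -, -, -, -, -, -, k, -, -, -, -⟩ := h v
    exact k : Off (u 10) (u 1) y v)
  have o5 := (off_iff h13).1 fun v => (by
    obtain ⟨-, -, -, -, -, -, -, -, -, -, -, -, -, -, -, -, -, -, -,
      -, -, -, -, -, -, -, -, -, -, -, -, k, -, -, -⟩ := h v
    exact k : Off (u 8) (u 2) (u 3) v)
  have o6 := (off_iff h13).1 fun v => (by
    obtain ⟨-, -, -, -, -, -, -, -, -, -, -, -, -, -, -, -, -, -, -,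
      -, -, -, -, -, -, -, -, -, -, -, -, -, k, -, -⟩ := h v
    exact k : Off (u 11) (u 2) (u 3) v)
  have o7 := (off_iff h34).1 fun v => (by
    obtain ⟨-, -, -, -, -, -, -, -, -, -, -, -, -, -, -, -, -, -, -,
      -, -, -, -, -, -, -, -, -, -, -, -, -, -, -, k⟩ := h v
    exact k : Off (u 0) (u 1) (u 12) v)
  have nw1g : mink F m (u 6 - u 5) (u 6 - u 5) ≠ 0 := fun hz => h26 ⟨hz, h27⟩
  have hpar := parallel_core (mink F m) mink_symm null_prop x (u 0) (u 1) y (u 2) (u 3) (u 4)
    (u 5) (u 6) (u 7) (u 8) (u 9) (u 10) (u 11) h1 h2 h3 h4 h5 h6 h7 h8 h9 h10 h11 h12 h13 h14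
    o7.2.ne h15 h16 h17 h18 h19 h20 h21 h22 h23 h24 h25 o1.1 o2.1 o3.1 o4.1 o5.1 o6.1
    o1.2.ne nw1g
  -- conclude
  obtain ⟨κ, hκ⟩ : ∃ κ, κ = u 1 - x := ⟨_, rfl⟩
  obtain ⟨κ', hκ'⟩ : ∃ κ', κ' = y - u 0 := ⟨_, rfl⟩
  obtain ⟨k, hk⟩ : ∃ k, k = u 0 - x := ⟨_, rfl⟩
  rw [← hκ, ← hκ'] at hpar
  have nκ : mink F m κ κ = 0 := by rw [hκ]; exact (lam_symm _ h1).1
  have nκ' : mink F m κ' κ' = 0 := by rw [hκ']; exact (lam_symm _ h6).1
  have nk : mink F m k k = 0 := by rw [hk]; exact (lam_symm _ h11).1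
  have κ0 : κ ≠ 0 := by rw [hκ]; exact sub_ne_zero.2 h1.2.symm
  obtain ⟨α, hα⟩ := null_prop κ' κ nκ' nκ (by rw [mink_symm]; exact hpar) κ0
  have hneg : mink F m k κ > 0 := by
    have h := o7.2
    have e : u 0 - u 1 = k - κ := by rw [hk, hκ]; abel
    rw [e] at h
    simp only [map_sub, LinearMap.sub_apply] at h
    rw [mink_symm κ k, nk, nκ] at h
    linarith
  have hyt2 : mink F m (k + (α - 1) • κ) (k + (α - 1) • κ) = 0 := by
    have h := (lam_symm _ h12).1
    have e : y - u 1 = k + (α - 1) • κ := by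
      have : y = u 0 + κ' := by rw [hκ']; abel
      rw [this, hα, hk, hκ]; module
    rwa [e] at h
  simp only [map_add, map_smul, LinearMap.add_apply, LinearMap.smul_apply, smul_eq_mul] at hyt2
  rw [mink_symm κ k, nk, nκ] at hyt2
  have hα1 : α = 1 := by
    have : (α - 1) * mink F m k κ = 0 := by linarith
    rcases mul_eq_zero.1 this with h | h
    · linarith
    · exact absurd h hneg.ne'
  have e : x - y = -(k + κ) := by
    have : y = u 0 + κ' := by rw [hκ']; abel
    rw [this, hα, hα1, hk]; module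
  rw [mu_eq, e]
  simp only [map_add, map_neg, LinearMap.add_apply, LinearMap.neg_apply]
  rw [mink_symm κ k, nk, nκ]
  linarith

omit [LinearOrder F] [IsStrictOrderedRing F] in
lemma lam_of (a b k : Fin (m + 1) → F) (r : F) (h : a - b = r • k) (hk : mink F m k k = 0)
    (hk0 : k ≠ 0) (hr : r ≠ 0) : Lam (mink F m) a b := by
  constructor
  · rw [h, map_smul, LinearMap.map_smul₂, hk]
    simp
  · intro e
    rw [e, sub_self] at h
    rcases smul_eq_zero.1 h.symm with h1 | h1
    · exact hr h1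
    · exact hk0 h1

/-- Timelike related points admit the configuration. -/
lemma timelike_conf (hE : Euclid F) (hm : 2 ≤ m) {x y : Fin (m + 1) → F} (h : 0 < mu x y) :
    ∃ u : Fin 13 → Fin (m + 1) → F, ∀ v, Conf x y u v := by
  obtain ⟨d, hd⟩ : ∃ d, d = y - x := ⟨_, rfl⟩
  have hdd : 0 < mink F m d d := by
    rw [mu_eq] at h
    have e : x - y = -d := by rw [hd]; abel
    rw [e, map_neg, LinearMap.map_neg₂, neg_neg] at h
    exact h
  obtain ⟨e, f, hed, hfd, hfe, hee, hff⟩ := exists_frame hE hm d hdd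
  obtain ⟨M, hM⟩ : ∃ M, M = mink F m d d := ⟨_, rfl⟩
  rw [← hM] at hee hff hdd
  obtain ⟨k, hk⟩ : ∃ k, k = (1 / 2 : F) • (d + e) := ⟨_, rfl⟩
  obtain ⟨κ, hκ⟩ : ∃ κ, κ = (1 / 2 : F) • (d - e) := ⟨_, rfl⟩
  obtain ⟨γ, hγ⟩ : ∃ γ, γ = (1 / 2 : F) • (d + f) := ⟨_, rfl⟩
  have nk : mink F m k k = 0 := by
    rw [hk]
    simp only [map_add, map_smul, LinearMap.add_apply, LinearMap.smul_apply, smul_eq_mul]
    rw [← hM, mink_symm d e, hed, hee]; ring
  have nκ : mink F m κ κ = 0 := by
    rw [hκ]
    simp only [map_sub, map_smul, LinearMap.sub_apply, LinearMap.smul_apply, smul_eq_mul]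
    rw [← hM, mink_symm d e, hed, hee]; ring
  have nγ : mink F m γ γ = 0 := by
    rw [hγ]
    simp only [map_add, map_smul, LinearMap.add_apply, LinearMap.smul_apply, smul_eq_mul]
    rw [← hM, mink_symm d f, hfd, hff]; ring
  have kκ : mink F m k κ = M / 2 := by
    rw [hk, hκ]
    simp only [map_add, map_sub, map_smul, LinearMap.add_apply, LinearMap.smul_apply, smul_eq_mul]
    rw [← hM, mink_symm d e, hed, hee]; ring
  have kγ : mink F m k γ = M / 4 := by
    rw [hk, hγ]
    simp only [map_add, map_smul, LinearMap.add_apply, LinearMap.smul_apply, smul_eq_mul]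
    rw [← hM, mink_symm d f, hed, hfd, mink_symm e f, hfe]; ring
  have κγ : mink F m κ γ = M / 4 := by
    rw [hκ, hγ]
    simp only [map_add, map_sub, map_smul, LinearMap.sub_apply, LinearMap.smul_apply,
      smul_eq_mul]
    rw [← hM, mink_symm d f, hed, hfd, mink_symm e f, hfe]; ring
  have hM0 : M ≠ 0 := hdd.ne'
  have k0 : k ≠ 0 := by
    rintro h0
    have h1 : M / 2 = 0 := by rw [← kκ, h0]; simp
    apply hM0
    linarith
  have κ0 : κ ≠ 0 := by
    rintro h0
    have h1 : M / 2 = 0 := by rw [← kκ, h0]; simp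
    apply hM0
    linarith
  have γ0 : γ ≠ 0 := by
    rintro h0
    have h1 : M / 4 = 0 := by rw [← kγ, h0]; simp
    apply hM0
    linarith
  have hy : y = x + k + κ := by
    have : k + κ = d := by rw [hk, hκ]; module
    rw [add_assoc, this, hd]; abel
  have hke : k - κ = e := by rw [hk, hκ]; module
  have three : (3 : F) ≠ 0 := three_ne_zero
  have four : (4 : F) ≠ 0 := four_ne_zero
  have six : (6 : F) ≠ 0 := by norm_num
  have seven : (5 : F) ≠ 0 := by norm_num
  -- orthogonality computations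
  have offs : ∀ (a b c v : Fin (m + 1) → F) (r t : F), c - b = k → r ≠ 0 →
      a - b = r • ((2 : F) • γ - κ) + t • k → Off a b c v := by
    intro a b c v r t hcb hr hab
    have hbc : Lam (mink F m) b c := lam_symm _ (lam_of c b k 1 (by rw [hcb, one_smul]) nk k0
      one_ne_zero)
    refine (off_iff hbc).2 ⟨?_, ?_⟩ v
    · rw [hab, hcb]
      simp only [map_add, map_sub, map_smul, LinearMap.add_apply, LinearMap.sub_apply,
        LinearMap.smul_apply, smul_eq_mul]
      rw [mink_symm γ k, mink_symm κ k, nk, kκ, kγ]; ring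
    · rw [hab]
      have : mink F m (r • ((2 : F) • γ - κ) + t • k) (r • ((2 : F) • γ - κ) + t • k)
          = -(r ^ 2 * M) := by
        simp only [map_add, map_sub, map_smul, LinearMap.add_apply, LinearMap.sub_apply,
          LinearMap.smul_apply, smul_eq_mul]
        rw [mink_symm γ k, mink_symm κ k, mink_symm γ κ, nk, nκ, nγ, kκ, kγ, κγ]; ring
      rw [this]
      have : 0 < r ^ 2 * M := by positivity
      linarith
  refine ⟨![x + k, x + κ, x + (2 : F) • κ, x + k + (2 : F) • κ, x - κ, x + k - κ,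
    x - κ + (2 : F) • γ, x - κ + (4 : F) • γ, x - κ + (6 : F) • γ,
    x - κ + (2 : F) • γ + k, x - κ + (4 : F) • γ + k, x - κ + (6 : F) • γ + k,
    x + κ + γ], fun v => ?_⟩
  unfold Conf
  simp only [Matrix.cons_val]
  refine ⟨lam_of _ _ κ (-1) (by module) nκ κ0 (by norm_num),
    lam_of _ _ κ (-2) (by module) nκ κ0 (by norm_num),
    lam_of _ _ κ (-1) (by module) nκ κ0 (by norm_num),
    lam_of _ _ κ 1 (by module) nκ κ0 (by norm_num),
    lam_of _ _ κ 2 (by module) nκ κ0 (by norm_num),
    lam_of _ _ κ (-1) (by rw [hy]; module) nκ κ0 (by norm_num),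
    lam_of _ _ κ (-2) (by module) nκ κ0 (by norm_num),
    lam_of _ _ κ (-1) (by rw [hy]; module) nκ κ0 (by norm_num),
    lam_of _ _ κ 1 (by module) nκ κ0 (by norm_num),
    lam_of _ _ κ 2 (by rw [hy]; module) nκ κ0 (by norm_num),
    lam_of _ _ k (-1) (by module) nk k0 (by norm_num),
    lam_of _ _ k (-1) (by rw [hy]; module) nk k0 (by norm_num),
    lam_of _ _ k (-1) (by module) nk k0 (by norm_num),
    lam_of _ _ k (-1) (by module) nk k0 (by norm_num),
    lam_of _ _ γ (-2) (by module) nγ γ0 (by norm_num),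
    lam_of _ _ γ (-4) (by module) nγ γ0 (by norm_num),
    lam_of _ _ γ (-2) (by module) nγ γ0 (by norm_num),
    lam_of _ _ γ 2 (by module) nγ γ0 (by norm_num),
    lam_of _ _ γ 4 (by module) nγ γ0 (by norm_num),
    lam_of _ _ γ (-2) (by module) nγ γ0 (by norm_num),
    lam_of _ _ γ (-4) (by module) nγ γ0 (by norm_num),
    lam_of _ _ γ (-2) (by module) nγ γ0 (by norm_num),
    lam_of _ _ k (-1) (by module) nk k0 (by norm_num),
    lam_of _ _ k (-1) (by module) nk k0 (by norm_num),
    lam_of _ _ k (-1) (by module) nk k0 (by norm_num),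
    ?_, ?_,
    offs _ _ _ v 1 0 (by module) (by norm_num) (by module),
    offs _ _ _ v 1 1 (by module) (by norm_num) (by module),
    offs _ _ _ v 2 0 (by rw [hy]; module) (by norm_num) (by module),
    offs _ _ _ v 2 1 (by rw [hy]; module) (by norm_num) (by module),
    offs _ _ _ v 3 0 (by module) (by norm_num) (by module),
    offs _ _ _ v 3 1 (by module) (by norm_num) (by module),
    lam_of _ _ γ (-1) (by module) nγ γ0 (by norm_num), ?_⟩
  · -- `w₁` and `g` are not related
    intro hl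
    have h1 := hl.1
    have e1 : x - κ + (2 : F) • γ - (x + k - κ) = (2 : F) • γ - k := by abel
    rw [e1] at h1
    simp only [map_sub, map_smul, LinearMap.sub_apply, LinearMap.smul_apply, smul_eq_mul] at h1
    rw [mink_symm γ k, nk, nγ, kγ] at h1
    apply hM0
    linarith
  · -- `w₁ ≠ g`
    intro hl
    have e1 : (2 : F) • γ - k = 0 := by
      have : x - κ + (2 : F) • γ - (x + k - κ) = (2 : F) • γ - k := by abel
      rw [← this, hl, sub_self]
    have h1 : mink F m ((2 : F) • γ - k) ((2 : F) • γ - k) = 0 := by rw [e1]; simp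
    simp only [map_sub, map_smul, LinearMap.sub_apply, LinearMap.smul_apply, smul_eq_mul] at h1
    rw [mink_symm γ k, nk, nγ, kγ] at h1
    apply hM0
    linarith
  · -- `t₁ - t₂` is spacelike
    have hl : Lam (mink F m) (x + κ) (x + κ + γ) :=
      lam_of _ _ γ (-1) (by module) nγ γ0 (by norm_num)
    refine (off_iff hl).2 ⟨?_, ?_⟩ v
    · have e1 : x + k - (x + κ) = e := by rw [← hke]; abel
      have e2 : x + κ + γ - (x + κ) = γ := by abel
      rw [e1, e2, hγ, map_smul, map_add, hed, mink_symm e f, hfe]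
      simp
    · have e1 : x + k - (x + κ) = e := by rw [← hke]; abel
      rw [e1, hee]
      linarith

end Semantics

/-- There is one formula `∃ u₁ … u₁₃ ∀ v ψ` with `ψ` quantifier-free in the language with a
single binary relation which, in every dimension `m + 1 ≥ 3` and over every Euclidean ordered
field `F`, defines timelike relatedness from lightlike relatedness. -/
theorem result : ∃ ψ : Language.graph.BoundedFormula (Fin 2) 14, ψ.IsQF ∧
    ∀ (m : ℕ), 2 ≤ m → ∀ (F : Type u) [Field F] [LinearOrder F] [IsStrictOrderedRing F],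
      (∀ a : F, 0 ≤ a → ∃ b : F, b ^ 2 = a) → ∀ x y : Fin (m + 1) → F,
        (@Formula.Realize Language.graph (Fin (m + 1) → F) (lightlike F m).structure (Fin 2)
          (BoundedFormula.exs (BoundedFormula.all ψ)) ![x, y] ↔ 0 < mu x y) := by
  refine ⟨psi, psi_isQF, fun m hm F _ _ _ hE x y => ?_⟩
  let := (lightlike F m).structure
  rw [BoundedFormula.realize_exs]
  simp only [BoundedFormula.realize_all]
  constructor
  · rintro ⟨u, hu⟩
    exact conf_timelike (u := u) fun v => (realize_psi x y u v).1 (hu v)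
  · intro h
    obtain ⟨u, hu⟩ := timelike_conf hE hm h
    exact ⟨u, fun v => (realize_psi x y u v).2 (hu v)⟩

end Pool.Agent.Results.MP_446ff5_lc.TimelikeEA
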